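import Pool.Agent.KBP.Gen
import Pool.Agent.KBP.Expl
import Pool.Agent.KBP.Low

/-!
A power saving below the fibration bound for the rational points of bounded height on the
Kummer surfaces `Km(E x E')` over the rationals, for all elliptic curves `E : y^2 = f(x)` and
`E' : y^2 = g(z)`, in the model `w^2 = f(x) g(z)`, off the curves on which the points have
order of growth one.
-/

namespace Pool.Agent.Results.MP_d4c2b9_nt.KummerGeneral

open Height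

/-- The cubic `x^3 + a x + b`. -/
def cubic (a b x : ℚ) : ℚ := x ^ 3 + a * x + b

/-- The rational points `(x, z, w)` of `w^2 = f(x) g(z)` with `w ≠ 0`, `H(x) H(z) ≤ B` and
`R x z`. -/
def pts (a b a' b' : ℚ) (B : ℝ) (R : ℚ → ℚ → Prop) : Set (ℚ × ℚ × ℚ) :=
  {p | (p.2.2 ^ 2 = cubic a b p.1 * cubic a' b' p.2.1 ∧ p.2.2 ≠ 0 ∧
    mulHeight₁ p.1 * mulHeight₁ p.2.1 ≤ B) ∧ R p.1 p.2.1}

/-- `u` gives an isomorphism from `E` to `E'` over the rationals. -/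
def IsIso (a b a' b' u : ℚ) : Prop := u ≠ 0 ∧ a' = u ^ 4 * a ∧ b' = u ^ 6 * b

/-- The curve `z = u^2 x`. -/
def graph (u x z : ℚ) : Prop := z = u ^ 2 * x

/-- The curve `(z - θ) (u^2 x - θ) = 3 θ^2 + a'`. -/
def trans (a' u θ x z : ℚ) : Prop := (z - θ) * (u ^ 2 * x - θ) = 3 * θ ^ 2 + a'

/-- `(x, z)` lies on no exceptional curve. -/
def Off (a b a' b' x z : ℚ) : Prop :=
  ∀ u : ℚ, IsIso a b a' b' u →
    ¬ graph u x z ∧ ∀ θ : ℚ, cubic a' b' θ = 0 → ¬ trans a' u θ x z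

/-- The number of points with `R` has order of growth `B`. -/
def LinearGrowth (a b a' b' : ℚ) (R : ℚ → ℚ → Prop) : Prop :=
  (∃ C : ℝ, ∀ B : ℝ, 1 ≤ B → ((pts a b a' b' B R).ncard : ℝ) ≤ C * B) ∧
    ∃ c B₀ : ℝ, 0 < c ∧ ∀ B : ℝ, B₀ ≤ B → c * B ≤ ((pts a b a' b' B R).ncard : ℝ)

lemma finite_of_bound {α : Type*} {S : Set α} {c : ℝ}
    (h : ∀ s : Finset α, (∀ p ∈ s, p ∈ S) → (s.card : ℝ) ≤ c) :
    S.Finite ∧ (S.ncard : ℝ) ≤ c := by
  classical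
  have hfin : S.Finite := by
    by_contra hinf
    obtain ⟨n, hn⟩ := exists_nat_gt c
    obtain ⟨s, hs, hcard⟩ := Set.Infinite.exists_subset_card_eq hinf n
    have := h s (fun p hp => hs hp)
    rw [hcard] at this
    linarith
  refine ⟨hfin, ?_⟩
  have := h hfin.toFinset (fun p hp => by simpa using hp)
  rwa [Set.ncard_eq_toFinset_card S hfin]

/-- The points off the exceptional curves are finite and `O(B ^ (11 / 12 + ε))`, and the points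
on each exceptional curve have order of growth `B`. -/
theorem result (a b a' b' : ℚ) (h : 4 * a ^ 3 + 27 * b ^ 2 ≠ 0)
    (h' : 4 * a' ^ 3 + 27 * b' ^ 2 ≠ 0) :
    (∀ ε : ℝ, 0 < ε → ∃ C : ℝ, ∀ B : ℝ, 1 ≤ B →
      (pts a b a' b' B (Off a b a' b')).Finite ∧
      ((pts a b a' b' B (Off a b a' b')).ncard : ℝ) ≤ C * B ^ ((11 : ℝ) / 12 + ε)) ∧
    (∀ u : ℚ, IsIso a b a' b' u → LinearGrowth a b a' b' (graph u) ∧
      ∀ θ : ℚ, cubic a' b' θ = 0 → LinearGrowth a b a' b' (trans a' u θ)) ∧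
    (∀ u v : ℚ, IsIso a b a' b' u → IsIso a b a' b' v → u ^ 2 = v ^ 2) := by
  refine ⟨fun ε hε => ?_, ?_, ?_⟩
  · obtain ⟨C, _, hC⟩ := KBP.gen_main a b a' b' h h' ε hε
    refine ⟨C, fun B hB => finite_of_bound (fun s hs => hC B s hB (fun p hp => ?_))⟩
    obtain ⟨⟨h1, h2, h3⟩, h4⟩ := hs p hp
    refine ⟨h1, h2, h3, fun hG => ?_⟩
    obtain ⟨u, k0, k1, k2, k3⟩ := KBP.exc_of_onG h' hG
    obtain ⟨h5, h6⟩ := h4 u ⟨k0, k1, k2⟩
    rcases k3 with k3 | ⟨θ, k4, k5⟩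
    · exact h5 k3
    · exact h6 θ k4 k5
  · intro u hu
    obtain ⟨k0, k1, k2⟩ := hu
    exact ⟨⟨KBP.iso_up k0, KBP.iso_low k0 k1 k2⟩,
      fun θ hθ => ⟨KBP.trans_up h' k0 hθ, KBP.trans_low h' k0 k1 k2 hθ⟩⟩
  · intro u v hu hv
    exact KBP.tw_unique h hu.2.1 hu.2.2 hv.2.1 hv.2.2

end Pool.Agent.Results.MP_d4c2b9_nt.KummerGeneral
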