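import Pool.Agent.K3H.KumMain
import Pool.Agent.K3H.KumLow
import Pool.Agent.K3H.KumVan

/-!
Rational points of the Kummer surface `Km(E x E)`, in the model `w^2 = f(x) f(z)`, that come
from linearly dependent pairs of points on the quadratic twists of `E`.
-/

namespace Pool.Agent.Results.MP_d4c2b9_nt.KummerStrata

open WeierstrassCurve WeierstrassCurve.Affine Height

variable {K : Type*} [Field K]

/-- The cubic `f(x) = x^3 + a x + b`. -/
abbrev cub (a b x : K) : K := x ^ 3 + a * x + b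

/-- The quadratic twist by `D` of `y^2 = f(x)`: the curve `Y^2 = X^3 + a D^2 X + b D^3`. -/
abbrev twist (a b D : K) : WeierstrassCurve.Affine K := ⟨0, 0, 0, a * D ^ 2, b * D ^ 3⟩

/-- `p = (x, z, w)` is a rational point of the surface `w^2 = f(x) f(z)` with `w ≠ 0`. -/
def OnSurf (a b : K) (p : K × K × K) : Prop :=
  p.2.2 ^ 2 = cub a b p.1 * cub a b p.2.1 ∧ p.2.2 ≠ 0

/-- The points `P = (D x, D^2)` and `Q = (D z, D w)` of the twist by `D = f(x)`. -/
def Attached (a b x z w : K) (P Q : (twist a b (cub a b x)).Point) : Prop :=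
  (∃ h, P = Point.some (cub a b x * x) (cub a b x ^ 2) h) ∧
    (∃ h, Q = Point.some (cub a b x * z) (cub a b x * w) h)

/-- Rational points of the surface off the curve `F = 0`, with `H(x) H(z) ≤ B`, whose attached
points `P` and `Q` are linearly dependent over the integers. -/
def depSet [NumberField K] [DecidableEq K] (a b : K) (F : MvPolynomial (Fin 2) K) (B : ℝ) :
    Set (K × K × K) :=
  {p | OnSurf a b p ∧
    (∃ P Q, Attached a b p.1 p.2.1 p.2.2 P Q ∧ ¬ LinearIndependent ℤ ![P, Q]) ∧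
    MvPolynomial.eval ![p.1, p.2.1] F ≠ 0 ∧ mulHeight₁ p.1 * mulHeight₁ p.2.1 ≤ B}

/-- `F` vanishes at all the rational points whose attached points `P` and `Q` have infinite
order and satisfy a relation `2 (m P + n Q) = 0` with `m, n` coprime and `m^2 + n^2 < M`. -/
def Kills [DecidableEq K] (a b : K) (M : ℕ) (F : MvPolynomial (Fin 2) K) : Prop :=
  ∀ p : K × K × K, OnSurf a b p → ∀ P Q, Attached a b p.1 p.2.1 p.2.2 P Q →
    ¬ IsOfFinAddOrder P → ¬ IsOfFinAddOrder Q → ∀ m n : ℤ, IsCoprime m n →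
      m ^ 2 + n ^ 2 < M → 2 • (m • P + n • Q) = 0 → MvPolynomial.eval ![p.1, p.2.1] F = 0

lemma finite_of_bound {α : Type*} {S : Set α} {c : ℝ}
    (h : ∀ s : Finset α, (∀ p ∈ s, p ∈ S) → (s.card : ℝ) ≤ c) :
    S.Finite ∧ (S.ncard : ℝ) ≤ c := by
  classical
  have hfin : S.Finite := by
    by_contra hinf
    obtain ⟨n, hn⟩ := exists_nat_gt c
    obtain ⟨s, hs, hcard⟩ := Set.Infinite.exists_subset_card_eq hinf n
    have := h s (fun p hp => hs hp)
    rw [hcard] at this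
    linarith
  refine ⟨hfin, ?_⟩
  have := h hfin.toFinset (fun p hp => by simpa using hp)
  rwa [Set.ncard_eq_toFinset_card S hfin]

/-- Arithmetic stratification of the rational points of `Km(E x E)` given by dependent pairs. -/
theorem result {K : Type*} [Field K] [NumberField K] [DecidableEq K] (a b : K)
    (hd : 4 * a ^ 3 + 27 * b ^ 2 ≠ 0) :
    (∀ M : ℕ, ∃ F : MvPolynomial (Fin 2) K, F ≠ 0 ∧ Kills a b M F) ∧
    ∀ (F : MvPolynomial (Fin 2) K) (N : ℕ), 1 ≤ N → Kills a b N F →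
      (∃ C : ℝ, ∀ B : ℝ, 1 ≤ B → (depSet a b F B).Finite ∧
        ((depSet a b F B).ncard : ℝ) ≤ C * B ^ ((2 : ℝ) / N)) ∧
      (¬ Kills a b (N + 1) F → ∃ c B₀ : ℝ, 0 < c ∧ ∀ B : ℝ, B₀ ≤ B →
        c * B ^ ((2 : ℝ) / N) ≤ ((depSet a b F B).ncard : ℝ)) := by
  classical
  refine ⟨?_, ?_⟩
  · intro M
    obtain ⟨F, hF, h⟩ := K3H.exists_van hd M
    refine ⟨F, hF, ?_⟩
    intro p hp P Q hPQ hP hQ m n hmn hlt hrel
    rw [K3H.isTors_iff] at hP hQ
    exact h p.1 p.2.1 p.2.2 hp.1 hp.2 P Q hPQ hP hQ m n hmn hlt hrel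
  · intro F N hN hK
    obtain ⟨C, hC0, hC⟩ := K3H.dep_upper hd N hN
    have hub : ∀ B : ℝ, 1 ≤ B → (depSet a b F B).Finite ∧
        ((depSet a b F B).ncard : ℝ) ≤ C * B ^ ((2 : ℝ) / N) := by
      intro B hB
      apply finite_of_bound
      intro s hs
      apply hC B hB s
      intro p hp
      obtain ⟨hsurf, ⟨P, Q, hPQ, hdep⟩, hF, hH⟩ := hs p hp
      refine ⟨hsurf.1, hsurf.2, hH, P, Q, hPQ, hdep, ?_⟩
      intro hP hQ m n hmn hrel
      by_contra hlt
      push Not at hlt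
      rw [← K3H.isTors_iff] at hP hQ
      exact hF (hK p hsurf P Q hPQ hP hQ m n hmn hlt hrel)
    refine ⟨⟨C, hub⟩, ?_⟩
    intro hnK
    unfold Kills at hnK
    push Not at hnK
    obtain ⟨p, hp, P, Q, hPQ, hP, hQ, m, n, hmn, hlt, hrel, hF⟩ := hnK
    rw [K3H.isTors_iff] at hP hQ
    have hge : (N : ℤ) ≤ m ^ 2 + n ^ 2 := by
      by_contra hlt'
      push Not at hlt'
      rw [← K3H.isTors_iff] at hP hQ
      exact hF (hK p hp P Q hPQ hP hQ m n hmn hlt' hrel)
    have hN' : (N : ℤ) = m ^ 2 + n ^ 2 := by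
      push_cast at hlt
      omega
    obtain ⟨c, B0, hc, hlow⟩ := K3H.dep_lower hd F hp.2 hp.1 hPQ hP hQ hmn hrel hF hN'
    refine ⟨c, max B0 1, hc, ?_⟩
    intro B hB
    obtain ⟨s, hs, hcard⟩ := hlow B ((le_max_left _ _).trans hB)
    refine hcard.trans ?_
    have hfin := (hub B ((le_max_right _ _).trans hB)).1
    have hsub : (s : Set (K × K × K)) ⊆ depSet a b F B := by
      intro t ht
      obtain ⟨h1, h2, h3, h4, P', Q', h5, h6⟩ := hs t ht
      exact ⟨⟨h1, h2⟩, ⟨P', Q', h5, h6⟩, h4, h3⟩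
    have := Set.ncard_le_ncard hsub hfin
    rw [Set.ncard_coe_finset] at this
    exact_mod_cast this

end Pool.Agent.Results.MP_d4c2b9_nt.KummerStrata
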