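import Pool.Agent.K3Q.FormsMain

/-!
Rational points of bounded height on the smooth quartic surfaces `F(x, y) = G(z, w)` in projective
space, where `F` and `G` are binary quartic forms over a number field: a bound for the points with
`F(x, y)` in one square class, and a bound for the points with `F(x, y)` in a square class taken
by `F` or by `G` at a point of small height.
-/

set_option autoImplicit false

namespace Pool.Agent.Results.MP_d4c2b9_nt.QuarticForms

open Height
open scoped LinearAlgebra.Projectivization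

variable {K : Type*} [Field K]

/-- The binary quartic form with coefficients `q`. -/
def form (q : Fin 5 → K) (x y : K) : K :=
  q 0 * x ^ 4 + q 1 * x ^ 3 * y + q 2 * x ^ 2 * y ^ 2 + q 3 * x * y ^ 3 + q 4 * y ^ 4

/-- `27` times the discriminant of the form with coefficients `q`, that is `4 I ^ 3 - J ^ 2` for
its invariants `I` and `J`. -/
def disc (q : Fin 5 → K) : K :=
  4 * (12 * q 0 * q 4 - 3 * q 1 * q 3 + q 2 ^ 2) ^ 3 -
    (72 * q 0 * q 2 * q 4 + 9 * q 1 * q 2 * q 3 - 27 * q 0 * q 3 ^ 2 - 27 * q 4 * q 1 ^ 2 -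
      2 * q 2 ^ 3) ^ 2

variable [NumberField K]

/-- The points `P = [x : y : z : w]` of `ℙ³(K)` with `F(x, y) = G(z, w) ≠ 0` and height at most
`B`; `F`, `G` are the forms with coefficients `q`, `r`. -/
def surfSet (q r : Fin 5 → K) (B : ℝ) : Set (ℙ K (Fin 4 → K)) :=
  {P | form q (P.rep 0) (P.rep 1) = form r (P.rep 2) (P.rep 3) ∧
    form q (P.rep 0) (P.rep 1) ≠ 0 ∧ P.mulHeight ≤ B}

/-- Those points of `surfSet q r B` for which `F(x, y)` equals `D` up to a nonzero square (this does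
not depend on the choice of homogeneous coordinates, as `F` has degree 4). -/
def overSet (q r : Fin 5 → K) (D : K) (B : ℝ) : Set (ℙ K (Fin 4 → K)) :=
  {P | P ∈ surfSet q r B ∧ ∃ v : K, v ≠ 0 ∧ form q (P.rep 0) (P.rep 1) * v ^ 2 = D}

/-- Those points of `surfSet q r B` for which the curve `D v ^ 2 = F(t, 1)` or the curve
`D v ^ 2 = G(t, 1)`, `D = F(x, y)`, has a `K`-rational point `(t, v)` with `v ≠ 0` and
`H(t) ≤ B ^ θ`. -/
def smallSet (q r : Fin 5 → K) (θ B : ℝ) : Set (ℙ K (Fin 4 → K)) :=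
  {P | P ∈ surfSet q r B ∧ ∃ t v : K, v ≠ 0 ∧ mulHeight₁ t ≤ B ^ θ ∧
    (form q (P.rep 0) (P.rep 1) * v ^ 2 = form q t 1 ∨
      form q (P.rep 0) (P.rep 1) * v ^ 2 = form r t 1)}

omit [NumberField K] in
lemma finite_of_bound {α : Type*} {S : Set α} {c : ℝ}
    (h : ∀ s : Finset α, (∀ p ∈ s, p ∈ S) → (s.card : ℝ) ≤ c) :
    S.Finite ∧ (S.ncard : ℝ) ≤ c := by
  classical
  have hfin : S.Finite := by
    by_contra hinf
    obtain ⟨n, hn⟩ := exists_nat_gt c
    obtain ⟨s, hs, hcard⟩ := Set.Infinite.exists_subset_card_eq hinf n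
    have := h s (fun p hp => hs hp)
    rw [hcard] at this
    linarith
  refine ⟨hfin, ?_⟩
  have := h hfin.toFinset (fun p hp => by simpa using hp)
  rwa [Set.ncard_eq_toFinset_card S hfin]

lemma height_rep (P : ℙ K (Fin 4 → K)) : P.mulHeight = mulHeight P.rep := by
  conv_lhs => rw [← P.mk_rep]
  exact Projectivization.mulHeight_mk _

/-- The points of `F(x, y) = G(z, w) ≠ 0` over one square class number `O(B ^ ε)`, uniformly in the
class, and the points over all classes having a point of height at most `B ^ θ` number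
`O(B ^ (2 θ + ε))`. -/
theorem result (q r : Fin 5 → K) (hq : disc q ≠ 0) (hr : disc r ≠ 0)
    (θ ε : ℝ) (hθ : 0 ≤ θ) (hε : 0 < ε) :
    ∃ C : ℝ, ∀ B : ℝ, 1 ≤ B →
      (∀ D : K, D ≠ 0 → (overSet q r D B).Finite ∧ ((overSet q r D B).ncard : ℝ) ≤ C * B ^ ε) ∧
      (smallSet q r θ B).Finite ∧ ((smallSet q r θ B).ncard : ℝ) ≤ C * B ^ (2 * θ + ε) := by
  classical
  obtain ⟨C, _, hC⟩ := K3Q.forms_main q r hq hr θ ε hθ hε
  refine ⟨C, fun B hB => ⟨fun D hD => ?_, ?_⟩⟩
  · apply finite_of_bound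
    intro s hs
    apply (hC B hB).1 D hD s
    intro P hP
    obtain ⟨⟨h1, h2, h3⟩, h4⟩ := hs P hP
    rw [height_rep] at h3
    exact ⟨h1, h3, h4⟩
  · apply finite_of_bound
    intro s hs
    apply (hC B hB).2 s
    intro P hP
    obtain ⟨⟨h1, h2, h3⟩, h4⟩ := hs P hP
    rw [height_rep] at h3
    exact ⟨h1, h2, h3, h4⟩

end Pool.Agent.Results.MP_d4c2b9_nt.QuarticForms
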