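import Pool.Agent.K3Q.Main

/-!
Rational points of bounded height on the K3 surfaces `w^2 = F(x) G(z)`, where `F` and `G` are
separable polynomials of degree 3 or 4 over a number field: a bound for the points over one
quadratic twist, and a bound for the points over all twists having a rational point of small
height.
-/

set_option autoImplicit false

namespace Pool.Agent.Results.MP_d4c2b9_nt.TwistFibres

open Height Polynomial

variable {K : Type*} [Field K] [NumberField K]

/-- The points `(x, z, w)`, `w ≠ 0`, of `w^2 = F(x) G(z)` with `H(x) H(z) ≤ B`. -/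
def surfSet (F G : K[X]) (B : ℝ) : Set (K × K × K) :=
  {p | p.2.2 ^ 2 = F.eval p.1 * G.eval p.2.1 ∧ p.2.2 ≠ 0 ∧
    mulHeight₁ p.1 * mulHeight₁ p.2.1 ≤ B}

/-- Those points of `surfSet F G B` for which `F(x)` equals `D` up to a nonzero square: they lie
over the twist by `D`. -/
def overSet (F G : K[X]) (D : K) (B : ℝ) : Set (K × K × K) :=
  {p | p ∈ surfSet F G B ∧ ∃ y : K, y ≠ 0 ∧ F.eval p.1 * y ^ 2 = D}

/-- Those points `(x, z, w)` of `surfSet F G B` such that for `D = F(x)` the curve `D y^2 = F(t)` or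
the curve `D y^2 = G(t)` has a `K`-rational point `(t, y)` with `y ≠ 0` and `H(t) ≤ B ^ θ`. -/
def smallSet (F G : K[X]) (θ B : ℝ) : Set (K × K × K) :=
  {p | p ∈ surfSet F G B ∧ ∃ t y : K, y ≠ 0 ∧ mulHeight₁ t ≤ B ^ θ ∧
    (F.eval p.1 * y ^ 2 = F.eval t ∨ F.eval p.1 * y ^ 2 = G.eval t)}

lemma finite_of_bound {α : Type*} {S : Set α} {c : ℝ}
    (h : ∀ s : Finset α, (∀ p ∈ s, p ∈ S) → (s.card : ℝ) ≤ c) :
    S.Finite ∧ (S.ncard : ℝ) ≤ c := by
  classical
  have hfin : S.Finite := by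
    by_contra hinf
    obtain ⟨n, hn⟩ := exists_nat_gt c
    obtain ⟨s, hs, hcard⟩ := Set.Infinite.exists_subset_card_eq hinf n
    have := h s (fun p hp => hs hp)
    rw [hcard] at this
    linarith
  refine ⟨hfin, ?_⟩
  have := h hfin.toFinset (fun p hp => by simpa using hp)
  rwa [Set.ncard_eq_toFinset_card S hfin]

/-- Over any number field, the points of `w^2 = F(x) G(z)` over one twist number `O(B ^ ε)`,
uniformly in the twist, and the points over all twists having a point of height at most `B ^ θ`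
number `O(B ^ (2 θ + ε))`. -/
theorem result (F G : K[X]) (hF : F.Separable) (hFd : F.natDegree = 3 ∨ F.natDegree = 4)
    (hG : G.Separable) (hGd : G.natDegree = 3 ∨ G.natDegree = 4)
    (θ ε : ℝ) (hθ : 0 ≤ θ) (hε : 0 < ε) :
    ∃ C : ℝ, ∀ B : ℝ, 1 ≤ B →
      (∀ D : K, D ≠ 0 → (overSet F G D B).Finite ∧ ((overSet F G D B).ncard : ℝ) ≤ C * B ^ ε) ∧
      (smallSet F G θ B).Finite ∧ ((smallSet F G θ B).ncard : ℝ) ≤ C * B ^ (2 * θ + ε) := by
  classical
  obtain ⟨C, _, hC⟩ := K3Q.main_count F G hF hFd hG hGd θ ε hθ hε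
  refine ⟨C, fun B hB => ⟨fun D hD => ?_, ?_⟩⟩
  · apply finite_of_bound
    intro s hs
    apply (hC B hB).1 D hD s
    intro p hp
    obtain ⟨⟨h1, h2, h3⟩, h4⟩ := hs p hp
    exact ⟨h1, h2, h3, h4⟩
  · apply finite_of_bound
    intro s hs
    apply (hC B hB).2 s
    intro p hp
    obtain ⟨⟨h1, h2, h3⟩, h4⟩ := hs p hp
    exact ⟨h1, h2, h3, h4⟩

end Pool.Agent.Results.MP_d4c2b9_nt.TwistFibres
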